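import Mathlib

set_option autoImplicit false

namespace Pool.Agent.Results.MP_1cb079_al.Yes

universe u

lemma cen {G : Type u} [Group G] {a : G} (h : a ∈ Subgroup.center G) (x : G) : Commute x a :=
  Subgroup.mem_center_iff.1 h x

lemma conj {G : Type u} [Group G] (x g c : G) (hc : c ∈ Subgroup.center G)
    (h : x * g = c * g * x) (n : ℕ) : x ^ n * g = c ^ n * g * x ^ n := by
  induction n with
  | zero => simp
  | succ n ih =>
    rw [pow_succ x, mul_assoc, h, ← mul_assoc, ← mul_assoc, (cen hc (x ^ n)).eq, mul_assoc c, ih,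
      pow_succ' c]
    group

lemma malcev (G : Type u) [Group G] [Group.IsNilpotent G] :
    (∀ z ∈ Subgroup.center G, ∀ n, 0 < n → z ^ n = 1 → z = 1) →
      ∀ n, 0 < n → ∀ x y : G, x ^ n = y ^ n → x = y := by
  refine Group.nilpotent_center_quotient_ind (P := fun G _ _ =>
    (∀ z ∈ Subgroup.center G, ∀ n, 0 < n → z ^ n = 1 → z = 1) →
      ∀ n, 0 < n → ∀ x y : G, x ^ n = y ^ n → x = y) G
      (fun G _ _ _ _ _ x y _ => Subsingleton.elim _ _) ?_
  intro G _ _ ih h n hn x y e
  have := ih (fun z hz n hn e => ?_) n hn x y (by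
    rw [← QuotientGroup.mk_pow, ← QuotientGroup.mk_pow, e])
  · rw [QuotientGroup.eq] at this
    have e2 : y = x * (x⁻¹ * y) := by group
    rw [e2, (cen this x).mul_pow] at e
    rw [e2, h _ this n hn (by simpa using e.symm), mul_one]
  · obtain ⟨z, rfl⟩ := QuotientGroup.mk_surjective z
    rw [← QuotientGroup.mk_pow, QuotientGroup.eq_one_iff] at e
    rw [QuotientGroup.eq_one_iff, Subgroup.mem_center_iff]
    intro g
    have h1 : z * g * z⁻¹ * g⁻¹ ∈ Subgroup.center G := by
      rw [← QuotientGroup.eq_one_iff]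
      have := Subgroup.mem_center_iff.1 hz (g : G ⧸ Subgroup.center G)
      simp [← this]
    have h2 := conj z g _ h1 (by group) n
    rw [← (cen e g).eq, mul_assoc] at h2
    have h3 := h _ h1 n hn (by simpa using h2.symm)
    rw [mul_inv_eq_one, mul_inv_eq_iff_eq_mul] at h3
    exact h3.symm

lemma fin_index (A : Type u) [CommGroup A] (hA : ∀ a : A, IsOfFinOrder a) (n : ℕ)
    (h : {a : A | a ^ n = 1}.Finite) : Finite (A ⧸ (powMonoidHom n : A →* A).range) := by
  classical
  by_contra hi
  rw [not_finite_iff_infinite] at hi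
  obtain ⟨S, hS⟩ := Infinite.exists_subset_card_eq (A ⧸ (powMonoidHom n : A →* A).range)
    (h.toFinset.card + 1)
  let B := Subgroup.closure ((S.image Quotient.out : Finset A) : Set A)
  have : Group.FG B := Group.closure_finset_fg _
  have : Finite B := CommGroup.finite_of_fg_isMulTorsion B (IsMulTorsion.subgroup hA B)
  have e := Subgroup.index_range (f := (powMonoidHom n : B →* B))
  have h1 : Nat.card (powMonoidHom n : B →* B).ker ≤ h.toFinset.card := by
    rw [← Nat.card_eq_finsetCard]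
    refine Nat.card_le_card_of_injective (β := h.toFinset)
      (fun b => ⟨b.1.1, h.mem_toFinset.2 (congrArg Subtype.val b.2)⟩) fun a b e => ?_
    exact Subtype.ext (Subtype.ext (congrArg (fun z : h.toFinset => z.1) e))
  have h2 : S.card ≤ (powMonoidHom n : B →* B).range.index := by
    rw [← Nat.card_eq_finsetCard]
    refine Nat.card_le_card_of_injective (β := B ⧸ (powMonoidHom n : B →* B).range)
      (fun s => QuotientGroup.mk ⟨s.1.out, Subgroup.subset_closure (by
        simp only [Finset.coe_image]; exact ⟨s.1, s.2, rfl⟩)⟩) fun a b e => ?_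
    obtain ⟨c, hc⟩ := QuotientGroup.eq.1 e
    apply Subtype.ext
    rw [← Quotient.out_eq a.1, ← Quotient.out_eq b.1]
    exact QuotientGroup.eq.2 ⟨c.1, congrArg Subtype.val hc⟩
  omega

/-- the torsion part of the centre -/
def tz (G : Type u) [Group G] : Subgroup G where
  carrier := {a | a ∈ Subgroup.center G ∧ IsOfFinOrder a}
  mul_mem' := fun h k => ⟨mul_mem h.1 k.1, (cen k.1 _).isOfFinOrder_mul h.2 k.2⟩
  one_mem' := ⟨one_mem _, IsOfFinOrder.one⟩
  inv_mem' := fun h => ⟨inv_mem h.1, h.2.inv⟩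

instance (G : Type u) [Group G] : (tz G).Normal :=
  ⟨fun a h g => by rwa [(cen h.1 g).eq, mul_inv_cancel_right]⟩

lemma atf (G : Type u) [Group G] (h : ∀ n, 0 < n → {g : G | g ^ n = 1}.Finite) (n : ℕ)
    (hn : 0 < n) : {g : G ⧸ tz G | g ^ n = 1}.Finite := by
  let _ : CommGroup (tz G) := { (inferInstance : Group (tz G)) with
    mul_comm := fun a b => Subtype.ext (cen b.2.1 a.1).eq }
  have := fin_index (tz G) (fun a => (Subgroup.subtype_injective _).isOfFinOrder_iff.1 a.2.2) n
    ((h n hn).preimage (f := Subtype.val) Subtype.val_injective.injOn |>.subset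
      fun a ha => congrArg Subtype.val ha)
  refine (Set.finite_iUnion (f := fun q : tz G ⧸ (powMonoidHom n : tz G →* tz G).range =>
    QuotientGroup.mk '' {g : G | g ^ (n * orderOf q.out.1) = 1})
    fun q => (h _ (Nat.mul_pos hn q.out.2.2.orderOf_pos)).image _).subset fun g hg => ?_
  obtain ⟨g, rfl⟩ := QuotientGroup.mk_surjective g
  have hg' : g ^ n ∈ tz G := by
    rw [← QuotientGroup.eq_one_iff, QuotientGroup.mk_pow]; exact hg
  obtain ⟨⟨_, s, rfl⟩, hs⟩ := QuotientGroup.mk_out_eq_mul
    (powMonoidHom n : tz G →* tz G).range ⟨_, hg'⟩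
  refine Set.mem_iUnion.2 ⟨QuotientGroup.mk ⟨_, hg'⟩, g * s.1, ?_, by simp⟩
  have e : (g * s.1) ^ n = (Quotient.out (QuotientGroup.mk ⟨_, hg'⟩ :
      tz G ⧸ (powMonoidHom n : tz G →* tz G).range)).1 := by
    rw [(cen s.2.1 g).mul_pow]; exact (congrArg Subtype.val hs).symm
  show _ ^ _ = _
  rw [pow_mul, e, pow_orderOf_eq_one]

lemma down {G : Type u} [Group G] (N : Subgroup G) [hN : N.Normal]
    (h : ∀ a ∈ N, IsOfFinOrder a) (j : ℕ) : ∀ t ∈ N, t ∈ Subgroup.upperCentralSeries G (j + 1) →
      (t : G ⧸ tz G) ∈ Subgroup.upperCentralSeries (G ⧸ tz G) j := by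
  induction j with
  | zero =>
    intro t ht e
    rw [zero_add, Subgroup.upperCentralSeries_one] at e
    simpa using ⟨e, h t ht⟩
  | succ j ih =>
    intro t ht e
    rw [Subgroup.mem_upperCentralSeries_succ_iff] at e ⊢
    intro y
    obtain ⟨y, rfl⟩ := QuotientGroup.mk_surjective y
    have := ih (t * y * t⁻¹ * y⁻¹) (by
      rw [mul_assoc, mul_assoc, ← mul_assoc y]
      exact mul_mem ht (hN.conj_mem _ (inv_mem ht) y)) (e y)
    simpa [commutatorElement_def] using this

lemma main (i : ℕ) : ∀ (G : Type u) [Group G] [Group.IsNilpotent G],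
    (∀ n, 0 < n → {g : G | g ^ n = 1}.Finite) →
    (∀ N : Subgroup G, N.Normal → (∀ a ∈ N, IsOfFinOrder a) →
      N ≤ Subgroup.upperCentralSeries G i) →
    ∀ n, 0 < n → ∀ y : G, {x | x ^ n = y}.Finite := by
  induction i with
  | zero =>
    intro G _ _ _ h n hn y
    refine Set.Subsingleton.finite fun a ha b hb =>
      malcev G (fun z hz m hm e => ?_) n hn a b (ha.trans hb.symm)
    simpa using h (tz G) inferInstance (fun a h => h.2)
      ⟨hz, isOfFinOrder_iff_pow_eq_one.2 ⟨m, hm, e⟩⟩
  | succ i ih =>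
    intro G _ _ h k n hn y
    have := ih (G ⧸ tz G) (atf G h) (fun M hM hT t ht => ?_) n hn y
    · refine Set.Finite.of_finite_fibers (QuotientGroup.mk (s := tz G)) (this.subset ?_) ?_
      · rintro _ ⟨x, rfl, rfl⟩
        simp
      · rintro _ ⟨x, hx, rfl⟩
        refine ((h n hn).image (x * ·)).subset fun z hz => ⟨x⁻¹ * z, ?_, by simp⟩
        have h1 : x⁻¹ * z ∈ tz G := QuotientGroup.eq.1 hz.2.symm
        have := (cen h1.1 x).mul_pow n
        rw [mul_inv_cancel_left, hz.1, hx] at this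
        simpa using this.symm
    · obtain ⟨t, rfl⟩ := QuotientGroup.mk_surjective t
      have hT' : ∀ a ∈ M.comap (QuotientGroup.mk' (tz G)), IsOfFinOrder a := fun a ha => by
        obtain ⟨m, hm, e⟩ := isOfFinOrder_iff_pow_eq_one.1 (hT _ ha)
        rw [← map_pow, QuotientGroup.mk'_apply, QuotientGroup.eq_one_iff] at e
        exact e.2.of_pow hm.ne'
      exact down _ hT' i t ht (k _ inferInstance hT' ht)

theorem result (G : Type u) [Group G] [Group.IsNilpotent G]
    (h : ∀ n : ℕ, 0 < n → {g : G | g ^ n = 1}.Finite) :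
    ∀ n : ℕ, 0 < n → ∀ y : G, {x : G | x ^ n = y}.Finite :=
  main (Group.nilpotencyClass G) G h fun N _ _ => by simp

end Pool.Agent.Results.MP_1cb079_al.Yes
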